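import Mathlib

/-!
# The Mittag-Leffler lemma for inverse systems of sets of bounded size
-/

set_option autoImplicit false
set_option linter.all false

namespace Pool.Agent.Helper77.BG

/-- `m_0 = 0`, `m_{i+1} = 2 + e m_i` -/
def mm (e : ℕ) : ℕ → ℕ
  | 0 => 0
  | i + 1 => 2 + e * mm e i

/-- the range of the inverse systems -/
def AA (e : ℕ) : ℕ := 2 * e + (e + 1) * mm e e + 2

theorem mm_mono (e : ℕ) (he : 1 ≤ e) : Monotone (mm e) := by
  refine monotone_nat_of_le_succ fun i => ?_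
  show mm e i ≤ 2 + e * mm e i
  nlinarith [Nat.zero_le (mm e i)]

section

variable {J : Type} [DecidableEq J] {G : Finset J → Type}
  (pr : ∀ ⦃v v' : Finset J⦄, v ⊆ v' → G v' → G v)
  (S : ∀ v : Finset J, Set (G v)) 

/-- elements that can be lifted by `m` steps -/
def EL (m : ℕ) (v : Finset J) : Set (G v) :=
  {g | g ∈ S v ∧ ∀ (v' : Finset J) (h : v ⊆ v'), (v' \ v).card ≤ m → ∃ g' ∈ S v', pr h g' = g}

theorem EL_sub (m : ℕ) (v : Finset J) : EL pr S m v ⊆ S v := fun _ h => h.1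

theorem EL_anti {m m' : ℕ} (h : m ≤ m') (v : Finset J) : EL pr S m' v ⊆ EL pr S m v :=
  fun _ hg => ⟨hg.1, fun v' hv hc => hg.2 v' hv (hc.trans h)⟩

variable (hcomp : ∀ {v v' v'' : Finset J} (h : v ⊆ v') (h' : v' ⊆ v'') (g : G v''),
    pr h (pr h' g) = pr (h.trans h') g)
  (v0 : Finset J) (e a : ℕ)
  (hfin : ∀ v, v0 ⊆ v → (v \ v0).card ≤ a → (S v).Finite)
  (hne : ∀ v, v0 ⊆ v → (v \ v0).card ≤ a → (S v).Nonempty)
  (hcard : ∀ v, v0 ⊆ v → (v \ v0).card ≤ a → (S v).ncard ≤ e)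
  (hpr : ∀ {v v' : Finset J} (h : v ⊆ v'), v0 ⊆ v → (v' \ v0).card ≤ a → ∀ g ∈ S v', pr h g ∈ S v)

theorem card_sdiff_le_add {u v w : Finset J} (h : u ⊆ v) (h' : v ⊆ w) :
    (w \ u).card ≤ (v \ u).card + (w \ v).card := by
  refine le_trans (Finset.card_le_card ?_) (Finset.card_union_le _ _)
  intro x hx
  rw [Finset.mem_union, Finset.mem_sdiff, Finset.mem_sdiff]
  rw [Finset.mem_sdiff] at hx
  by_cases hxv : x ∈ v
  · exact Or.inl ⟨hxv, hx.2⟩
  · exact Or.inr ⟨hx.1, hxv⟩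

include hcomp hfin hcard hpr in
/-- the set of liftable elements contains an image -/
theorem EL_image (m : ℕ) (v : Finset J) (hv : v0 ⊆ v) (hc : (v \ v0).card + e * m ≤ a) :
    ∃ (v' : Finset J) (h : v ⊆ v'), (v' \ v).card ≤ e * m ∧
      ∀ g ∈ S v', pr h g ∈ EL pr S m v := by
  classical
  have hva : (v \ v0).card ≤ a := by omega
  have hf := hfin v hv hva
  have hex : ∀ g : G v, ∃ w : Finset J, v ⊆ w ∧ (w \ v).card ≤ m ∧
      (g ∈ S v → g ∉ EL pr S m v → ∀ (h : v ⊆ w) (g' : G w), g' ∈ S w → pr h g' ≠ g) := by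
    intro g
    by_cases hg : g ∈ S v ∧ g ∉ EL pr S m v
    · obtain ⟨h1, h2⟩ := hg
      have h3 : ¬ ∀ (v' : Finset J) (h : v ⊆ v'), (v' \ v).card ≤ m → ∃ g' ∈ S v', pr h g' = g :=
        fun h => h2 ⟨h1, h⟩
      simp only [not_forall, not_exists, not_and] at h3
      obtain ⟨w, hw, hwm, hw'⟩ := h3
      exact ⟨w, hw, hwm, fun _ _ _ g' hg' => hw' g' hg'⟩
    · exact ⟨v, subset_rfl, by simp, fun h1 h2 => absurd ⟨h1, h2⟩ hg⟩
  choose W hW1 hW2 hW3 using hex
  refine ⟨v ∪ hf.toFinset.biUnion W, Finset.subset_union_left, ?_, ?_⟩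
  · have h1 : ((v ∪ hf.toFinset.biUnion W) \ v).card ≤ ∑ g ∈ hf.toFinset, (W g \ v).card := by
      refine le_trans (Finset.card_le_card ?_) Finset.card_biUnion_le
      intro x hx
      rw [Finset.mem_sdiff, Finset.mem_union, Finset.mem_biUnion] at hx
      rw [Finset.mem_biUnion]
      rcases hx with ⟨hx1 | ⟨g, hg, hxg⟩, hx2⟩
      · exact absurd hx1 hx2
      · exact ⟨g, hg, Finset.mem_sdiff.2 ⟨hxg, hx2⟩⟩
    refine h1.trans ?_
    have h2 : ∑ g ∈ hf.toFinset, (W g \ v).card ≤ hf.toFinset.card * m := by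
      rw [← smul_eq_mul]
      exact Finset.sum_le_card_nsmul _ _ _ fun g _ => hW2 g
    have h3 : hf.toFinset.card ≤ e := by
      rw [← Set.ncard_eq_toFinset_card (S v) hf]
      exact hcard v hv hva
    exact h2.trans (Nat.mul_le_mul_right m h3)
  · intro g hg
    have hc' : ((v ∪ hf.toFinset.biUnion W) \ v0).card ≤ a := by
      have h1 : ((v ∪ hf.toFinset.biUnion W) \ v).card ≤ e * m := by
        have h1 : ((v ∪ hf.toFinset.biUnion W) \ v).card ≤ ∑ g ∈ hf.toFinset, (W g \ v).card := by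
          refine le_trans (Finset.card_le_card ?_) Finset.card_biUnion_le
          intro x hx
          rw [Finset.mem_sdiff, Finset.mem_union, Finset.mem_biUnion] at hx
          rw [Finset.mem_biUnion]
          rcases hx with ⟨hx1 | ⟨g, hg, hxg⟩, hx2⟩
          · exact absurd hx1 hx2
          · exact ⟨g, hg, Finset.mem_sdiff.2 ⟨hxg, hx2⟩⟩
        refine h1.trans ?_
        have h2 : ∑ g ∈ hf.toFinset, (W g \ v).card ≤ hf.toFinset.card * m := by
          rw [← smul_eq_mul]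
          exact Finset.sum_le_card_nsmul _ _ _ fun g _ => hW2 g
        have h3 : hf.toFinset.card ≤ e := by
          rw [← Set.ncard_eq_toFinset_card (S v) hf]
          exact hcard v hv hva
        exact h2.trans (Nat.mul_le_mul_right m h3)
      have h2 := card_sdiff_le_add hv
        (Finset.subset_union_left : v ⊆ v ∪ hf.toFinset.biUnion W)
      omega
    have h1 := hpr (Finset.subset_union_left : v ⊆ v ∪ hf.toFinset.biUnion W) hv hc' g hg
    by_contra hno
    have hsub : W (pr (Finset.subset_union_left : v ⊆ v ∪ hf.toFinset.biUnion W) g) ⊆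
        v ∪ hf.toFinset.biUnion W := by
      intro x hx
      rw [Finset.mem_union, Finset.mem_biUnion]
      exact Or.inr ⟨_, hf.mem_toFinset.2 h1, hx⟩
    have hvW := hW1 (pr (Finset.subset_union_left : v ⊆ v ∪ hf.toFinset.biUnion W) g)
    refine hW3 _ h1 hno hvW (pr hsub g) ?_ ?_
    · exact hpr hsub (hv.trans hvW) hc' g hg
    · rw [hcomp]

include hcomp hpr in
/-- liftable elements are projected to liftable elements -/
theorem EL_proj (m : ℕ) {v v1 : Finset J} (h : v ⊆ v1) (hv : v0 ⊆ v)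
    (hc : (v1 \ v0).card + m ≤ a) : ∀ g ∈ EL pr S m v1, pr h g ∈ EL pr S m v := by
  intro g hg
  refine ⟨hpr h hv (by omega) g hg.1, ?_⟩
  intro v' hv' hcv'
  have h1 : ((v' ∪ v1) \ v1).card ≤ m := by
    refine le_trans (Finset.card_le_card ?_) hcv'
    intro x hx
    rw [Finset.mem_sdiff, Finset.mem_union] at hx
    rw [Finset.mem_sdiff]
    rcases hx with ⟨hx1 | hx1, hx2⟩
    · exact ⟨hx1, fun hxv => hx2 (h hxv)⟩
    · exact absurd hx1 hx2
  obtain ⟨g', hg', hgg'⟩ := hg.2 (v' ∪ v1) Finset.subset_union_right h1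
  have h2 := card_sdiff_le_add (hv.trans h) (Finset.subset_union_right : v1 ⊆ v' ∪ v1)
  refine ⟨pr (Finset.subset_union_left : v' ⊆ v' ∪ v1) g', ?_, ?_⟩
  · exact hpr _ (hv.trans hv') (by omega) g' hg'
  · rw [hcomp, ← hgg', hcomp]

include hcomp hfin hcard hpr in
/-- lifting liftable elements to liftable elements -/
theorem EL_lift (m m' : ℕ) {v v1 : Finset J} (h : v ⊆ v1) (hv : v0 ⊆ v)
    (hc : (v1 \ v0).card + e * m ≤ a) (hm : (v1 \ v).card + e * m ≤ m') :
    ∀ g ∈ EL pr S m' v, ∃ g1 ∈ EL pr S m v1, pr h g1 = g := by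
  intro g hg
  obtain ⟨v', hv', hc', hv''⟩ := EL_image pr S hcomp v0 e a hfin hcard hpr m v1 (hv.trans h) hc
  have h1 := card_sdiff_le_add h hv'
  obtain ⟨g', hg', hgg'⟩ := hg.2 v' (h.trans hv') (by omega)
  exact ⟨pr hv' g', hv'' g' hg', by rw [hcomp, hgg']⟩

/-- the maximal number of liftable elements -/
noncomputable def Mx (m k : ℕ) : ℕ :=
  sSup {n | ∃ v : Finset J, v0 ⊆ v ∧ (v \ v0).card ≤ k ∧ n = (EL pr S m v).ncard}

include hfin hcard in
theorem Mx_bdd (m k : ℕ) (hk : k ≤ a) :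
    BddAbove {n | ∃ v : Finset J, v0 ⊆ v ∧ (v \ v0).card ≤ k ∧ n = (EL pr S m v).ncard} := by
  refine ⟨e, ?_⟩
  rintro n ⟨v, hv, hvk, rfl⟩
  exact (Set.ncard_le_ncard (EL_sub pr S m v) (hfin v hv (hvk.trans hk))).trans
    (hcard v hv (hvk.trans hk))

theorem Mx_ne (m k : ℕ) :
    {n | ∃ v : Finset J, v0 ⊆ v ∧ (v \ v0).card ≤ k ∧ n = (EL pr S m v).ncard}.Nonempty :=
  ⟨_, v0, subset_rfl, by simp, rfl⟩

include hfin hcard in
theorem Mx_le (m k : ℕ) (hk : k ≤ a) : Mx pr S v0 m k ≤ e := by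
  refine csSup_le (Mx_ne pr S v0 m k) ?_
  rintro n ⟨v, hv, hvk, rfl⟩
  exact (Set.ncard_le_ncard (EL_sub pr S m v) (hfin v hv (hvk.trans hk))).trans
    (hcard v hv (hvk.trans hk))

include hfin hcard in
theorem le_Mx (m k : ℕ) (hk : k ≤ a) (v : Finset J) (hv : v0 ⊆ v) (hvk : (v \ v0).card ≤ k) :
    (EL pr S m v).ncard ≤ Mx pr S v0 m k :=
  le_csSup (Mx_bdd pr S v0 e a hfin hcard m k hk) ⟨v, hv, hvk, rfl⟩

include hfin hcard in
theorem Mx_att (m k : ℕ) (hk : k ≤ a) : ∃ v : Finset J, v0 ⊆ v ∧ (v \ v0).card ≤ k ∧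
    Mx pr S v0 m k = (EL pr S m v).ncard :=
  Nat.sSup_mem (Mx_ne pr S v0 m k) (Mx_bdd pr S v0 e a hfin hcard m k hk)

end

/-- The Mittag-Leffler lemma. -/
theorem ml (e : ℕ) {J : Type} [DecidableEq J] {G : Finset J → Type}
    (pr : ∀ ⦃v v' : Finset J⦄, v ⊆ v' → G v' → G v)
    (hcomp : ∀ {v v' v'' : Finset J} (h : v ⊆ v') (h' : v' ⊆ v'') (g : G v''),
      pr h (pr h' g) = pr (h.trans h') g)
    (S : ∀ v : Finset J, Set (G v)) (v0 : Finset J)
    (hfin : ∀ v, v0 ⊆ v → (v \ v0).card ≤ AA e → (S v).Finite)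
    (hne : ∀ v, v0 ⊆ v → (v \ v0).card ≤ AA e → (S v).Nonempty)
    (hcard : ∀ v, v0 ⊆ v → (v \ v0).card ≤ AA e → (S v).ncard ≤ e)
    (hpr : ∀ {v v' : Finset J} (h : v ⊆ v'), v0 ⊆ v → (v' \ v0).card ≤ AA e →
      ∀ g ∈ S v', pr h g ∈ S v) :
    ∃ w : Finset J, v0 ⊆ w ∧ (w \ v0).card + 2 ≤ AA e ∧
      ∃ g : ∀ v : Finset J, w ⊆ v → (v \ w).card ≤ 2 → G v,
        (∀ v h h', g v h h' ∈ S v) ∧
        ∀ (v v' : Finset J) (hv : w ⊆ v) (hvc : (v \ w).card ≤ 2) (hv' : w ⊆ v')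
          (hvc' : (v' \ w).card ≤ 2) (h : v ⊆ v'), pr h (g v' hv' hvc') = g v hv hvc := by
  classical
  have he : 1 ≤ e := by
    have h1 := hcard v0 subset_rfl (by simp)
    have h2 := (Set.ncard_pos (hfin v0 subset_rfl (by simp))).2 (hne v0 subset_rfl (by simp))
    omega
  have hmm : ∀ i, i ≤ e → mm e i ≤ mm e e := fun i hi => mm_mono e he hi
  have key : ∀ t, t ≤ e → (∃ i k, i + 1 ≤ e ∧ k + 2 ≤ 2 * e ∧
      Mx pr S v0 (mm e (i + 1)) k = Mx pr S v0 (mm e i) (k + 2)) ∨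
      t + 1 ≤ Mx pr S v0 (mm e (e - t)) (2 * t) := by
    intro t
    induction t with
    | zero =>
      intro _
      right
      have hb : (v0 \ v0).card + e * mm e e ≤ AA e := by
        unfold AA
        simp
        nlinarith [Nat.zero_le (mm e e)]
      obtain ⟨v', hv', hc', hv''⟩ := EL_image pr S hcomp v0 e (AA e) hfin hcard hpr (mm e e) v0
        subset_rfl hb
      have hc2 : (v' \ v0).card ≤ AA e := by
        have : (v0 \ v0).card = 0 := by simp
        omega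
      obtain ⟨g, hg⟩ := hne v' hv' hc2
      have h1 : (EL pr S (mm e e) v0).Nonempty := ⟨_, hv'' g hg⟩
      have h2 := le_Mx pr S v0 e (AA e) hfin hcard (mm e e) 0 (Nat.zero_le _) v0 subset_rfl
        (by simp)
      have h3 := (Set.ncard_pos ((hfin v0 subset_rfl (by simp)).subset
        (EL_sub pr S (mm e e) v0))).2 h1
      simpa using le_trans h3 h2
    | succ t ih =>
      intro ht
      rcases ih (by omega) with h | h
      · exact Or.inl h
      · by_cases heq : Mx pr S v0 (mm e (e - (t + 1) + 1)) (2 * t) =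
            Mx pr S v0 (mm e (e - (t + 1))) (2 * t + 2)
        · exact Or.inl ⟨e - (t + 1), 2 * t, by omega, by omega, heq⟩
        · right
          have h4 : e - (t + 1) + 1 = e - t := by omega
          rw [h4] at heq
          have hk : 2 * t + 2 ≤ AA e := by
            unfold AA
            nlinarith [Nat.zero_le ((e + 1) * mm e e)]
          have h5 : Mx pr S v0 (mm e (e - t)) (2 * t) ≤
              Mx pr S v0 (mm e (e - (t + 1))) (2 * t + 2) := by
            obtain ⟨v, hv, hvk, hve⟩ := Mx_att pr S v0 e (AA e) hfin hcard (mm e (e - t)) (2 * t)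
              (by omega)
            rw [hve]
            refine le_trans ?_ (le_Mx pr S v0 e (AA e) hfin hcard (mm e (e - (t + 1)))
              (2 * t + 2) hk v hv (by omega))
            refine Set.ncard_le_ncard (EL_anti pr S (mm_mono e he (by omega)) v) ?_
            exact (hfin v hv (by omega)).subset (EL_sub pr S _ v)
          have h6 : 2 * (t + 1) = 2 * t + 2 := by ring
          rw [h6]
          omega
  have hk : 2 * e ≤ AA e := by
    unfold AA
    nlinarith [Nat.zero_le ((e + 1) * mm e e)]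
  obtain ⟨i, k, hi, hk2, hik⟩ : ∃ i k, i + 1 ≤ e ∧ k + 2 ≤ 2 * e ∧
      Mx pr S v0 (mm e (i + 1)) k = Mx pr S v0 (mm e i) (k + 2) := by
    rcases key e le_rfl with h | h
    · exact h
    · have := Mx_le pr S v0 e (AA e) hfin hcard (mm e (e - e)) (2 * e) hk
      omega
  obtain ⟨w, hw, hwk, hwe⟩ := Mx_att pr S v0 e (AA e) hfin hcard (mm e (i + 1)) k (by omega)
  have hmi : mm e i ≤ mm e e := hmm i (by omega)
  have hemi : e * mm e i ≤ e * mm e e := Nat.mul_le_mul_left e hmi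
  have hAA : 2 * e + e * mm e e + mm e e + 2 = AA e := by
    unfold AA
    ring
  -- the sets of liftable elements near `w`
  have hsub : ∀ v, w ⊆ v → (v \ w).card ≤ 2 → v0 ⊆ v ∧ (v \ v0).card ≤ k + 2 := by
    intro v hv hc
    have := card_sdiff_le_add hw hv
    exact ⟨hw.trans hv, by omega⟩
  have hEw : (EL pr S (mm e (i + 1)) w) = (EL pr S (mm e i) w) := by
    refine Set.eq_of_subset_of_ncard_le (EL_anti pr S (mm_mono e he (by omega)) w) ?_
      ((hfin w hw (by omega)).subset (EL_sub pr S _ w))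
    rw [← hwe, hik]
    exact le_Mx pr S v0 e (AA e) hfin hcard (mm e i) (k + 2) (by omega) w hw (by omega)
  have hsurj : ∀ v (hv : w ⊆ v), (v \ w).card ≤ 2 →
      ∀ g ∈ EL pr S (mm e i) w, ∃ g1 ∈ EL pr S (mm e i) v, pr hv g1 = g := by
    intro v hv hc g hg
    rw [← hEw] at hg
    obtain ⟨h1, h2⟩ := hsub v hv hc
    refine EL_lift pr S hcomp v0 e (AA e) hfin hcard hpr (mm e i) (mm e (i + 1)) hv hw ?_ ?_ g hg
    · omega
    · show (v \ w).card + e * mm e i ≤ 2 + e * mm e i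
      omega
  have hproj : ∀ v v' (h : v ⊆ v'), w ⊆ v → (v' \ w).card ≤ 2 → ∀ g ∈ EL pr S (mm e i) v',
      pr h g ∈ EL pr S (mm e i) v := by
    intro v v' h hv hc
    obtain ⟨h1, h2⟩ := hsub v' (hv.trans h) hc
    exact EL_proj pr S hcomp v0 (AA e) hpr (mm e i) h (hw.trans hv) (by omega)
  have hinj : ∀ v (hv : w ⊆ v), (v \ w).card ≤ 2 →
      ∀ g1 ∈ EL pr S (mm e i) v, ∀ g2 ∈ EL pr S (mm e i) v, pr hv g1 = pr hv g2 → g1 = g2 := by
    intro v hv hc g1 hg1 g2 hg2 h12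
    obtain ⟨h1, h2⟩ := hsub v hv hc
    have hfinv : (EL pr S (mm e i) v).Finite :=
      (hfin v h1 (by omega)).subset (EL_sub pr S _ v)
    have himg : (fun g => pr hv g) '' (EL pr S (mm e i) v) = EL pr S (mm e i) w := by
      ext g
      constructor
      · rintro ⟨g', hg', rfl⟩
        exact hproj w v hv subset_rfl hc g' hg'
      · intro hg
        obtain ⟨g', hg', h⟩ := hsurj v hv hc g hg
        exact ⟨g', hg', h⟩
    have hcd : (EL pr S (mm e i) v).ncard ≤ ((fun g => pr hv g) '' (EL pr S (mm e i) v)).ncard := by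
      rw [himg, ← hEw, ← hwe, hik]
      exact le_Mx pr S v0 e (AA e) hfin hcard (mm e i) (k + 2) (by omega) v h1 h2
    have := Set.injOn_of_ncard_image_eq (le_antisymm (Set.ncard_image_le hfinv) hcd) hfinv
    exact this hg1 hg2 h12
  -- an element over `w`
  have hne' : (EL pr S (mm e i) w).Nonempty := by
    obtain ⟨v', hv', hc', hv''⟩ := EL_image pr S hcomp v0 e (AA e) hfin hcard hpr (mm e i) w hw
      (by omega)
    have := card_sdiff_le_add hw hv'
    obtain ⟨g, hg⟩ := hne v' (hw.trans hv') (by omega)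
    exact ⟨_, hv'' g hg⟩
  obtain ⟨g0, hg0⟩ := hne'
  choose g hg using fun v hv hc => hsurj v hv hc g0 hg0
  refine ⟨w, hw, by omega, fun v hv hc => g v hv hc, ?_, ?_⟩
  · intro v hv hc
    exact (hg v hv hc).1.1
  · intro v v' hv hvc hv' hvc' h
    refine hinj v hv hvc _ (hproj v v' h hv hvc' _ (hg v' hv' hvc').1) _
      (hg v hv hvc).1 ?_
    rw [hcomp, (hg v hv hvc).2]
    exact (hg v' hv' hvc').2

end Pool.Agent.Helper77.BG
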