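import Mathlib

/-!
# The number of hitting sets of minimal size
-/

set_option autoImplicit false
set_option linter.all false

namespace Pool.Agent.Helper77.BG

theorem hit_aux {α : Type} [DecidableEq α] (Fam : Set (Finset α)) (b T : ℕ)
    (hb : ∀ X ∈ Fam, X.card ≤ b)
    (hmin : ∀ g : Finset α, (∀ X ∈ Fam, (g ∩ X).Nonempty) → T ≤ g.card) (n : ℕ) :
    ∀ s : Finset α, s.card + n = T →
      {g : Finset α | s ⊆ g ∧ g.card = T ∧ ∀ X ∈ Fam, (g ∩ X).Nonempty}.Finite ∧
      {g : Finset α | s ⊆ g ∧ g.card = T ∧ ∀ X ∈ Fam, (g ∩ X).Nonempty}.ncard ≤ b ^ n := by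
  induction n with
  | zero =>
    intro s hs
    have h : {g : Finset α | s ⊆ g ∧ g.card = T ∧ ∀ X ∈ Fam, (g ∩ X).Nonempty} ⊆ {s} := by
      rintro g ⟨h1, h2, _⟩
      exact (Finset.eq_of_subset_of_card_le h1 (by omega)).symm
    refine ⟨(Set.finite_singleton s).subset h, ?_⟩
    rw [pow_zero, ← Set.ncard_singleton s]
    exact Set.ncard_le_ncard h (Set.finite_singleton s)
  | succ n ih =>
    intro s hs
    have h1 : ¬ ∀ X ∈ Fam, (s ∩ X).Nonempty := fun h => by
      have := hmin s h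
      omega
    simp only [not_forall, Finset.not_nonempty_iff_eq_empty] at h1
    obtain ⟨X, hX, hsX⟩ := h1
    have h2 : {g : Finset α | s ⊆ g ∧ g.card = T ∧ ∀ X ∈ Fam, (g ∩ X).Nonempty} ⊆
        ⋃ x ∈ X, {g : Finset α | insert x s ⊆ g ∧ g.card = T ∧
          ∀ X ∈ Fam, (g ∩ X).Nonempty} := by
      rintro g ⟨h1, h2, h3⟩
      obtain ⟨x, hx⟩ := h3 X hX
      rw [Finset.mem_inter] at hx
      rw [Set.mem_iUnion₂]
      exact ⟨x, hx.2, Finset.insert_subset hx.1 h1, h2, h3⟩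
    have h3 : ∀ x ∈ X, x ∉ s := by
      intro x hx hxs
      have : x ∈ s ∩ X := Finset.mem_inter.2 ⟨hxs, hx⟩
      rw [hsX] at this
      exact absurd this (Finset.notMem_empty x)
    have h4 : ∀ x ∈ X, (insert x s).card + n = T := by
      intro x hx
      rw [Finset.card_insert_of_notMem (h3 x hx)]
      omega
    have h5 : (⋃ x ∈ X, {g : Finset α | insert x s ⊆ g ∧ g.card = T ∧
          ∀ X ∈ Fam, (g ∩ X).Nonempty}).Finite :=
      X.finite_toSet.biUnion fun x hx => (ih _ (h4 x hx)).1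
    refine ⟨h5.subset h2, ?_⟩
    refine (Set.ncard_le_ncard h2 h5).trans ?_
    refine (Finset.set_ncard_biUnion_le X _).trans ?_
    refine (Finset.sum_le_card_nsmul X _ (b ^ n) fun x hx => (ih _ (h4 x hx)).2).trans ?_
    rw [smul_eq_mul, pow_succ, mul_comm]
    exact Nat.mul_le_mul_left _ (hb X hX)

/-- a family of sets of size at most `b` has at most `b ^ T` hitting sets of the minimal size
`T` -/
theorem hit {α : Type} [DecidableEq α] (Fam : Set (Finset α)) (b T : ℕ)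
    (hb : ∀ X ∈ Fam, X.card ≤ b)
    (hmin : ∀ g : Finset α, (∀ X ∈ Fam, (g ∩ X).Nonempty) → T ≤ g.card) :
    {g : Finset α | g.card = T ∧ ∀ X ∈ Fam, (g ∩ X).Nonempty}.Finite ∧
      {g : Finset α | g.card = T ∧ ∀ X ∈ Fam, (g ∩ X).Nonempty}.ncard ≤ b ^ T := by
  have h := hit_aux Fam b T hb hmin T ∅ (by simp)
  simpa using h

end Pool.Agent.Helper77.BG
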